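import Pool.Agent.Helper50.CL.Thin
import Pool.Agent.Helper50.TS.Main
import Pool.Graph.R_pool_sql_team_seeded_63374d34.Results.MP_d0fd9b_nt.SparseSetsOfPrimes

/-!
# Bounded patterns of consecutive primes `p` with small class numbers `h(p)`, at every large scale

The question asks for the distribution of the class number `h(p)` of `ℚ(√p)`, in particular for the primes with `h(p) = 1`.
Here we consider `m` consecutive primes in a bounded interval. Let `V` be an admissible set with `log |V| ≥ (4 + ε) m + C` and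
`a` a residue class modulo `q` such that all `a + v`, `v ∈ V`, are prime to `q`. For EVERY large `N`

(1) there is a distribution `μ` on the subsets of `V` with at least `m` elements with
`Prob (U ⊆ P) ≤ (C m |U| / |V|) ^ |U|` for all `U ⊆ V` with at most `m` elements, all of whose values `P` have the property
`Good`: for at least `N / (log N) ^ B` integers `t ≤ N`, `t ≡ a (mod q)`, the elements of `t + P` are consecutive primes (and there
is no other prime in `[t - R, t + max P]`), and ALL these primes `p` have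
`Reg p ≥ c (log N / log log N) ^ (1 / 2) log p` and `h p ≤ √p (log log N / log N) ^ (1 / 2) / c`, and the prime ideals of
`ℚ(√p)` whose norm is a prime of a given (sparse) set `P` of primes and at most `(log p) ^ α` generate a subgroup of index
at most `p ^ e` of the class group, so that `h p ≤ p ^ e` if they are principal (for instance `P` all primes, `α > 2`,
`e > 1 / (2 α)`);

(2) almost all subsets of `V` with about `m²` elements contain an `m`-element set with this property.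

Proof: exact patterns (`Helper50/SP`, `Helper50/TS`; hand-ins `MP_3ec731_nt.SpreadExactPatterns`, `TypicalSubsets`) are realised by
at least `N / (log N) ^ B` integers up to `N`, and by the bounds for the number of the primes with small regulator in short
intervals (hand-in `VeryShortIntervals`) there are at most `N / (log N) ^ (B + 1)` primes up to `2 N` for which the regulator is
smaller or the class number larger (`Helper50/CL`); for the last property there are at most `N ^ (1 - δ)` exceptions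
(`SparseSetsOfPrimes` of the library).
-/

set_option autoImplicit false

open Finset Filter NumberField

namespace Pool.Agent.Results.MP_d0fd9b_nt.ConsecutivePrimes

/-- The real quadratic field of the square root of `d`. -/
noncomputable abbrev QS (d : ℕ) : IntermediateField ℚ ℝ :=
  IntermediateField.adjoin ℚ {Real.sqrt (d : ℝ)}

theorem sqrt_integral (d : ℕ) : IsIntegral ℚ (Real.sqrt (d : ℝ)) := by
  refine ⟨Polynomial.X ^ 2 - Polynomial.C (d : ℚ), Polynomial.monic_X_pow_sub_C _ (by norm_num), ?_⟩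
  simp [Real.sq_sqrt (show (0 : ℝ) ≤ d by positivity)]

noncomputable instance (d : ℕ) : NumberField (QS d) := by
  have : FiniteDimensional ℚ (QS d) := IntermediateField.adjoin.finiteDimensional (sqrt_integral d)
  exact { to_charZero := inferInstance, to_finiteDimensional := this }

/-- The class number of the field of the square root of `d`. -/
noncomputable def h (d : ℕ) : ℕ := classNumber (QS d)

/-- The regulator of the field of the square root of `d`. -/
noncomputable def Reg (d : ℕ) : ℝ := Units.regulator (QS d)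

/-- `V` is admissible: for every prime `q` some translate of `V` contains no multiple of `q`. -/
def Admissible (V : Finset ℕ) : Prop :=
  ∀ q : ℕ, q.Prime → ∃ t : ℕ, ∀ v ∈ V, ¬ q ∣ t + v

/-- the numbers `t + u`, `u ∈ H`, are prime, and there is no other prime in `[t - R, t + max H]` -/
def Consecutive (R : ℕ) (H : Finset ℕ) (t : ℕ) : Prop :=
  (∀ u ∈ H, (t + u).Prime) ∧
    ∀ p : ℕ, p.Prime → t ≤ p + R → (∃ u ∈ H, p ≤ t + u) → ∃ u ∈ H, p = t + u

/-- the regulator of `ℚ(√p)` is at least `c (log N / log log N) ^ (1 / 2) log p` and the class number is at most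
`√p (log log N / log N) ^ (1 / 2) / c` -/
def Small (c : ℝ) (N p : ℕ) : Prop :=
  c * √(Real.log N / Real.log (Real.log N)) * Real.log p ≤ Reg p ∧
    (h p : ℝ) ≤ √(p : ℝ) / (c * √(Real.log N / Real.log (Real.log N)))

open scoped Classical in
/-- The prime numbers of the set `P` in the interval `(y, 2y]`. -/
noncomputable def primesIn (P : Set ℕ) (y : ℕ) : Finset ℕ :=
  (Finset.Ioc y (2 * y)).filter (fun p => p.Prime ∧ p ∈ P)

/-- For every `σ < s` and all large `y` the set `P` contains at least `y ^ σ` primes of `(y, 2y]`. -/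
def HasExponent (P : Set ℕ) (s : ℝ) : Prop :=
  ∀ σ : ℝ, σ < s → ∃ y0 : ℕ, ∀ y ≥ y0, (y : ℝ) ^ σ ≤ (primesIn P y).card

/-- The nonzero prime ideals of `K` whose norm is a prime number of `P` and at most `B`. -/
def smallPrimes (P : Set ℕ) (K : Type) [Field K] [NumberField K] (B : ℝ) : Set (nonZeroDivisors (Ideal (𝓞 K))) :=
  {𝔭 | (𝔭 : Ideal (𝓞 K)).IsPrime ∧ (Ideal.absNorm (𝔭 : Ideal (𝓞 K))).Prime ∧
    Ideal.absNorm (𝔭 : Ideal (𝓞 K)) ∈ P ∧ (Ideal.absNorm (𝔭 : Ideal (𝓞 K)) : ℝ) ≤ B}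

/-- The subgroup of the class group generated by the classes of these prime ideals. -/
noncomputable def Gen (P : Set ℕ) (K : Type) [Field K] [NumberField K] (B : ℝ) : Subgroup (ClassGroup (𝓞 K)) :=
  Subgroup.closure ((fun 𝔭 => ClassGroup.mk0 𝔭) '' smallPrimes P K B)

/-- The prime ideals of `K` of norm in `P` and at most `(log d) ^ α` generate a subgroup of index at most `d ^ e` of the
class group; if they are principal, the class number is at most `d ^ e`. -/
def GeneratedIn (K : Type) [Field K] [NumberField K] (P : Set ℕ) (α e : ℝ) (d : ℕ) : Prop :=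
  ((Gen P K (Real.log d ^ α)).index : ℝ) ≤ (d : ℝ) ^ e ∧
    ((∀ 𝔭 ∈ smallPrimes P K (Real.log d ^ α), (𝔭 : Ideal (𝓞 K)).IsPrincipal) → (classNumber K : ℝ) ≤ (d : ℝ) ^ e)

/-- `GeneratedIn` for the field of the square root of `d`. -/
def Generated (P : Set ℕ) (α e : ℝ) (d : ℕ) : Prop := GeneratedIn (QS d) P α e d

/-- The conditions on the set `P`, its exponent `s`, the size `α` and the exponent `e` of the index. -/
def Range (P : Set ℕ) (s α e : ℝ) : Prop :=
  0 < s ∧ s ≤ 1 ∧ HasExponent P s ∧ 1 < α * s ∧ 2 * (1 - s) + 2 / α < 1 ∧ (1 - s) / 2 + 1 / (2 * α) < e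

/-- There are at least `N / (log N) ^ B` integers `t ≤ N`, `t ≡ a (mod q)`, such that the elements of `t + H` are consecutive
primes and have the properties `Small` and `Generated`. -/
def Good (B : ℕ) (c : ℝ) (P : Set ℕ) (α e : ℝ) (q a R N : ℕ) (H : Finset ℕ) : Prop :=
  (N : ℝ) / Real.log N ^ B ≤
    Set.ncard {t : ℕ | t ≤ N ∧ t ≡ a [MOD q] ∧ Consecutive R H t ∧
      ∀ u ∈ H, Small c N (t + u) ∧ Generated P α e (t + u)}

/-- `μ` is a probability distribution on the subsets of `V` with at least `m` elements such that a random set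
contains a given set `U` of at most `m` elements with probability at most `(C m |U| / |V|) ^ |U|`. -/
def Spread (C : ℝ) (m : ℕ) (V : Finset ℕ) (μ : Finset ℕ → ℝ) : Prop :=
  (∀ P, 0 ≤ μ P) ∧ (∀ P, μ P ≠ 0 → P ⊆ V ∧ m ≤ P.card) ∧ ∑ P ∈ V.powerset, μ P = 1 ∧
    ∀ U ⊆ V, U.card ≤ m →
      ∑ P ∈ V.powerset with U ⊆ P, μ P ≤ (C * m * U.card / V.card) ^ U.card

/-- For every `T` at most the proportion `2 ^ (1 - T / (C m²))` of the `T`-element subsets of `V` contains no
good set with `m` elements, and if `2 m ≤ T ≤ m²`, then the proportion of the `T`-element subsets of `V` which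
contain a good set with `m` elements is at least `(T / (C m²)) ^ m`. -/
def Typical (C : ℝ) (m : ℕ) (V : Finset ℕ) (good : Finset ℕ → Prop) : Prop := ∀ T : ℕ,
  (Set.ncard {W : Finset ℕ | W ⊆ V ∧ W.card = T ∧ ¬ ∃ H ⊆ W, H.card = m ∧ good H} : ℝ) ≤
      2 ^ (1 - T / (C * m ^ 2) : ℝ) * (V.card.choose T : ℕ) ∧
    (2 * m ≤ T → T ≤ m ^ 2 → (T / (C * m ^ 2) : ℝ) ^ m * (V.card.choose T : ℕ) ≤
      Set.ncard {W : Finset ℕ | W ⊆ V ∧ W.card = T ∧ ∃ H ⊆ W, H.card = m ∧ good H})

theorem spread_mono {C C' : ℝ} (hC : 0 ≤ C) (hCC : C ≤ C') {m : ℕ} {V : Finset ℕ} {μ : Finset ℕ → ℝ}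
    (h : Pool.Agent.Helper50.SP.Spread C m V μ) : Spread C' m V μ := by
  refine ⟨h.1, h.2.1, h.2.2.1, fun U hU hUm => (h.2.2.2 U hU hUm).trans ?_⟩
  gcongr

theorem typical_mono {C C' : ℝ} (hC : 0 < C) (hCC : C ≤ C') {m : ℕ} (hm : 1 ≤ m) {V : Finset ℕ}
    {g g' : Finset ℕ → Prop} (hg : ∀ H ⊆ V, H.card = m → g H → g' H)
    (h : Pool.Agent.Helper50.TS.Typical C m V g) : Typical C' m V g' := by
  classical
  intro T
  obtain ⟨h1, h2⟩ := h T
  have hm0 : (0 : ℝ) < m := by exact_mod_cast hm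
  have hfin : ∀ Q : Finset ℕ → Prop, {W : Finset ℕ | W ⊆ V ∧ W.card = T ∧ Q W}.Finite := fun Q =>
    (V.powerset.finite_toSet).subset fun W hW => by
      rw [Finset.mem_coe, mem_powerset]
      exact hW.1
  have hTC : (T : ℝ) / (C' * m ^ 2) ≤ T / (C * m ^ 2) := by
    apply div_le_div_of_nonneg_left (Nat.cast_nonneg _) (by positivity)
    gcongr
  refine ⟨?_, fun h3 h4 => ?_⟩
  · have h5 : (Set.ncard {W : Finset ℕ | W ⊆ V ∧ W.card = T ∧ ¬ ∃ H ⊆ W, H.card = m ∧ g' H} : ℝ) ≤
        Set.ncard {W : Finset ℕ | W ⊆ V ∧ W.card = T ∧ ¬ ∃ H ⊆ W, H.card = m ∧ g H} := by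
      rw [Nat.cast_le]
      apply Set.ncard_le_ncard _ (hfin _)
      rintro W ⟨e1, e2, e3⟩
      refine ⟨e1, e2, fun ⟨H, f1, f2, f3⟩ => e3 ⟨H, f1, f2, hg H (f1.trans e1) f2 f3⟩⟩
    refine h5.trans (h1.trans ?_)
    apply mul_le_mul_of_nonneg_right _ (Nat.cast_nonneg _)
    exact Real.rpow_le_rpow_of_exponent_le (by norm_num) (by linarith)
  · have h5 : (Set.ncard {W : Finset ℕ | W ⊆ V ∧ W.card = T ∧ ∃ H ⊆ W, H.card = m ∧ g H} : ℝ) ≤
        Set.ncard {W : Finset ℕ | W ⊆ V ∧ W.card = T ∧ ∃ H ⊆ W, H.card = m ∧ g' H} := by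
      rw [Nat.cast_le]
      apply Set.ncard_le_ncard _ (hfin _)
      rintro W ⟨e1, e2, H, f1, f2, f3⟩
      exact ⟨e1, e2, H, f1, f2, hg H (f1.trans e1) f2 f3⟩
    refine le_trans ?_ ((h2 h3 h4).trans h5)
    apply mul_le_mul_of_nonneg_right _ (Nat.cast_nonneg _)
    have hC' : 0 < C' := lt_of_lt_of_le hC hCC
    exact pow_le_pow_left₀ (by positivity) hTC m

theorem finrank_QS (p : ℕ) (hp : p.Prime) : Module.finrank ℚ (QS p) = 2 := by
  have h0 : (0 : ℝ) ≤ p := by positivity
  rw [IntermediateField.adjoin.finrank (sqrt_integral p)]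
  have h1 : (minpoly ℚ (Real.sqrt (p : ℝ))).natDegree ≤ 2 := by
    have hd : minpoly ℚ (Real.sqrt (p : ℝ)) ∣ Polynomial.X ^ 2 - Polynomial.C (p : ℚ) := by
      apply minpoly.dvd
      simp [Real.sq_sqrt h0]
    have h2 := Polynomial.natDegree_le_of_dvd hd
      (Polynomial.X_pow_sub_C_ne_zero (by norm_num) _)
    rwa [Polynomial.natDegree_X_pow_sub_C] at h2
  have h2 : 0 < (minpoly ℚ (Real.sqrt (p : ℝ))).natDegree :=
    minpoly.natDegree_pos (sqrt_integral p)
  have h3 : (minpoly ℚ (Real.sqrt (p : ℝ))).natDegree ≠ 1 := by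
    intro h
    have h4 := (minpoly.natDegree_eq_one_iff).1 h
    obtain ⟨q, hq⟩ := h4
    have h5 := hp.irrational_sqrt
    apply h5
    exact ⟨q, by simpa using hq⟩
  omega

theorem root_QS (p : ℕ) : ∃ x : QS p, x ^ 2 = (p : QS p) := by
  refine ⟨⟨Real.sqrt (p : ℝ), IntermediateField.mem_adjoin_simple_self ℚ _⟩, ?_⟩
  apply Subtype.ext
  push_cast
  exact Real.sq_sqrt (by positivity)

theorem small_of_large {c : ℝ} {N p : ℕ} (hp : p.Prime)
    (hL : Helper50.VSI.Large (c * √(Real.log N / Real.log (Real.log N))) p) : Small c N p :=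
  hL (QS p) (finrank_QS p hp) (root_QS p)

/-- few exceptions to `Generated` -/
theorem few (B : ℕ) {P : Set ℕ} {s α e : ℝ} (hs0 : 0 < s) (hs1 : s ≤ 1) (hP : HasExponent P s)
    (h1 : 1 < α * s) (h2 : 2 * (1 - s) + 2 / α < 1) (he : (1 - s) / 2 + 1 / (2 * α) < e) :
    ∀ᶠ N : ℕ in atTop, ∀ S : Finset ℕ, (∀ p ∈ S, p.Prime ∧ p ≤ 2 * N ∧ ¬ Generated P α e p) →
      (S.card : ℝ) ≤ N / Real.log N ^ (B + 1) := by
  classical
  obtain ⟨ε, hε⟩ : ∃ ε : ℝ, ε = min (e - ((1 - s) / 2 + 1 / (2 * α))) ((1 - (2 * (1 - s) + 2 / α)) / 2) :=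
    ⟨_, rfl⟩
  have hε0 : 0 < ε := by
    rw [hε]
    exact lt_min (by linarith) (by linarith)
  have hε1 : ε ≤ e - ((1 - s) / 2 + 1 / (2 * α)) := by rw [hε]; exact min_le_left _ _
  have hε2 : ε ≤ (1 - (2 * (1 - s) + 2 / α)) / 2 := by rw [hε]; exact min_le_right _ _
  have hP' : Pool.Agent.Results.MP_d0fd9b_nt.SparseSetsOfPrimes.HasExponent P s := by
    intro σ hσ
    obtain ⟨y0, hy0⟩ := hP σ hσ
    refine ⟨y0, fun y hy => ?_⟩
    have h3 : Pool.Agent.Results.MP_d0fd9b_nt.SparseSetsOfPrimes.primesIn P y = primesIn P y := by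
      ext p
      simp only [Pool.Agent.Results.MP_d0fd9b_nt.SparseSetsOfPrimes.primesIn, primesIn, mem_filter]
    rw [h3]
    exact hy0 y hy
  obtain ⟨C, hC, -, hall⟩ := Pool.Agent.Results.MP_d0fd9b_nt.SparseSetsOfPrimes.result P s hs0 hs1 hP' α ε h1 hε0
  obtain ⟨f, hf⟩ : ∃ f : ℝ, f = 2 * (1 - s) + 2 / α + ε := ⟨_, rfl⟩
  rw [← hf] at hall
  have hf1 : f < 1 := by rw [hf]; linarith
  have hev := (isLittleO_log_rpow_rpow_atTop (s := 1 - f) ((B + 1 : ℕ) : ℝ) (by linarith)).bound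
    (c := 1 / (2 * C)) (by positivity)
  filter_upwards [(tendsto_natCast_atTop_atTop (R := ℝ)).eventually hev, eventually_ge_atTop 3] with N b1 b2
  intro S hS
  have hN0 : (0 : ℝ) < N := by
    have : 0 < N := by omega
    exact_mod_cast this
  have hL0 : 0 < Real.log N := Real.log_pos (by
    have : 1 < N := by omega
    exact_mod_cast this)
  rw [Real.rpow_natCast, Real.norm_eq_abs, Real.norm_eq_abs, abs_of_nonneg (by positivity),
    abs_of_nonneg (by positivity)] at b1
  have h3 : (S.card : ℝ) ≤ C * ((2 * N : ℕ) : ℝ) ^ f := by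
    refine le_trans ?_ (hall (2 * N))
    rw [Nat.cast_le]
    apply card_le_card
    intro p hp
    obtain ⟨g1, g2, g3⟩ := hS p hp
    rw [mem_filter, mem_Icc]
    refine ⟨⟨g1.two_le, g2⟩, g1, fun hg => g3 ?_⟩
    obtain ⟨-, g4, g5⟩ := hg (QS p) (finrank_QS p g1) (root_QS p)
    have hp1 : (1 : ℝ) ≤ p := by exact_mod_cast g1.one_le
    have g6 : (p : ℝ) ^ ((1 - s) / 2 + 1 / (2 * α) + ε) ≤ (p : ℝ) ^ e :=
      Real.rpow_le_rpow_of_exponent_le hp1 (by linarith)
    exact ⟨le_trans g4 g6, fun g7 => le_trans (g5 g7) g6⟩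
  have h4 : ((2 * N : ℕ) : ℝ) ^ f ≤ 2 * (N : ℝ) ^ f := by
    push_cast
    rw [Real.mul_rpow (by norm_num) hN0.le]
    apply mul_le_mul_of_nonneg_right _ (by positivity)
    calc (2 : ℝ) ^ f ≤ 2 ^ (1 : ℝ) := Real.rpow_le_rpow_of_exponent_le (by norm_num) hf1.le
      _ = 2 := Real.rpow_one 2
  have h5 : (N : ℝ) ^ f * (N : ℝ) ^ (1 - f) = N := by
    rw [← Real.rpow_add hN0]
    norm_num
  refine h3.trans ?_
  rw [le_div_iff₀ (by positivity)]
  calc C * ((2 * N : ℕ) : ℝ) ^ f * Real.log N ^ (B + 1) ≤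
        C * (2 * (N : ℝ) ^ f) * (1 / (2 * C) * (N : ℝ) ^ (1 - f)) := by gcongr
    _ = (N : ℝ) ^ f * (N : ℝ) ^ (1 - f) := by field_simp
    _ = N := h5

/-- from the number of the realisations to the property `Good` -/
theorem good_of_number (B : ℕ) : ∃ c : ℝ, 0 < c ∧ ∀ V : Finset ℕ, ∀ (P : Set ℕ) (s α e : ℝ), 0 < s → s ≤ 1 →
    HasExponent P s → 1 < α * s → 2 * (1 - s) + 2 / α < 1 → (1 - s) / 2 + 1 / (2 * α) < e →
    ∀ q a R : ℕ, ∀ᶠ N : ℕ in atTop,
    ∀ H ⊆ V, (N : ℝ) / Real.log N ^ B ≤ Pool.Agent.Helper50.TS.number q a R H (N : ℝ) →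
      ∀ B' : ℕ, B + 1 ≤ B' → ∀ c' : ℝ, 0 < c' → c' ≤ c → Good B' c' P α e q a R N H := by
  classical
  obtain ⟨c, hc, hthin⟩ := Pool.Agent.Helper50.CL.thin (B + 1)
  refine ⟨c, hc, fun V P s α e hs0 hs1 hP hα1 hα2 he q a R => ?_⟩
  have hlog := (Real.tendsto_log_atTop.comp (tendsto_natCast_atTop_atTop (R := ℝ))).eventually
    (eventually_ge_atTop (2 * V.card + 2 + Real.exp 1 : ℝ))
  filter_upwards [hthin, hlog, eventually_ge_atTop (V.sup id + 1), few B hs0 hs1 hP hα1 hα2 he] with N b1 b2 b3 b4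
  intro H hHV hnum B' hB' c' hc' hcc
  have b2' : 2 * (V.card : ℝ) + 2 + Real.exp 1 ≤ Real.log N := b2
  have hV0 : (0 : ℝ) ≤ V.card := Nat.cast_nonneg _
  have he0 := Real.exp_pos 1
  have hL0 : 0 < Real.log N := by linarith
  have hL1 : 1 ≤ Real.log N := by linarith
  have hLL : 0 < Real.log (Real.log N) := Real.log_pos (by linarith)
  have hN0 : (0 : ℝ) < N := by
    have : 0 < N := by omega
    exact_mod_cast this
  obtain ⟨w, hw⟩ : ∃ w : ℝ, w = √(Real.log N / Real.log (Real.log N)) := ⟨_, rfl⟩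
  have hw0 : 0 < w := by rw [hw]; positivity
  rw [← hw] at b1
  obtain ⟨A, hA⟩ : ∃ A : Finset ℕ, A = (range (N + 1)).filter
      (fun n => Pool.Agent.Helper50.TS.Consec q a R H n) := ⟨_, rfl⟩
  have hAc : Pool.Agent.Helper50.TS.number q a R H (N : ℝ) = A.card := by
    unfold Pool.Agent.Helper50.TS.number
    rw [← Set.ncard_coe_finset]
    congr 1
    ext n
    simp only [Set.mem_ofPred_eq, hA, coe_filter, mem_range, Nat.cast_le, Nat.lt_succ_iff]
  obtain ⟨Q, hQ⟩ : ∃ Q : ℕ → Prop, Q = fun n => Helper50.VSI.Large (c * w) n ∧ Generated P α e n := ⟨_, rfl⟩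
  obtain ⟨G, hG⟩ : ∃ G : Finset ℕ, G = A.filter (fun n => ∀ u ∈ H, Q (n + u)) := ⟨_, rfl⟩
  have hbad : ∀ u ∈ H, ((A.filter (fun n => ¬ Q (n + u))).card : ℝ) ≤
      2 * (N / Real.log N ^ (B + 1)) := by
    intro u hu
    have h0 : A.filter (fun n => ¬ Q (n + u)) ⊆ A.filter (fun n => ¬ Helper50.VSI.Large (c * w) (n + u)) ∪
        A.filter (fun n => ¬ Generated P α e (n + u)) := by
      intro n hn
      rw [mem_filter, hQ] at hn
      rw [mem_union, mem_filter, mem_filter]
      by_cases hl : Helper50.VSI.Large (c * w) (n + u)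
      · exact Or.inr ⟨hn.1, fun hg => hn.2 ⟨hl, hg⟩⟩
      · exact Or.inl ⟨hn.1, hl⟩
    have h1 := b1 ((A.filter (fun n => ¬ Helper50.VSI.Large (c * w) (n + u))).image (fun n => n + u))
      (fun p hp => by
        obtain ⟨n, hn, rfl⟩ := mem_image.1 hp
        rw [mem_filter, hA, mem_filter, mem_range] at hn
        obtain ⟨⟨h2, h3⟩, h4⟩ := hn
        refine ⟨h3.2.1 u hu, ?_, h4⟩
        have h5 : u ≤ V.sup id := le_sup (f := id) (hHV hu)
        omega)
    rw [card_image_of_injective _ (add_left_injective u)] at h1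
    have h2 := b4 ((A.filter (fun n => ¬ Generated P α e (n + u))).image (fun n => n + u))
      (fun p hp => by
        obtain ⟨n, hn, rfl⟩ := mem_image.1 hp
        rw [mem_filter, hA, mem_filter, mem_range] at hn
        obtain ⟨⟨h2, h3⟩, h4⟩ := hn
        refine ⟨h3.2.1 u hu, ?_, h4⟩
        have h5 : u ≤ V.sup id := le_sup (f := id) (hHV hu)
        omega)
    rw [card_image_of_injective _ (add_left_injective u)] at h2
    have h3 : ((A.filter (fun n => ¬ Q (n + u))).card : ℝ) ≤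
        (A.filter (fun n => ¬ Helper50.VSI.Large (c * w) (n + u))).card +
        (A.filter (fun n => ¬ Generated P α e (n + u))).card := by
      exact_mod_cast (card_le_card h0).trans (card_union_le _ _)
    linarith
  have hcov : A ⊆ G ∪ H.biUnion (fun u => A.filter (fun n => ¬ Q (n + u))) := by
    intro n hn
    by_cases hall : ∀ u ∈ H, Q (n + u)
    · exact mem_union_left _ (by rw [hG, mem_filter]; exact ⟨hn, hall⟩)
    · push Not at hall
      obtain ⟨u, hu, hu2⟩ := hall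
      exact mem_union_right _ (mem_biUnion.2 ⟨u, hu, mem_filter.2 ⟨hn, hu2⟩⟩)
  have hcard : (A.card : ℝ) ≤ G.card + V.card * (2 * (N / Real.log N ^ (B + 1))) := by
    have h1 : A.card ≤ G.card + ∑ u ∈ H, (A.filter (fun n => ¬ Q (n + u))).card :=
      (card_le_card hcov).trans ((card_union_le _ _).trans (Nat.add_le_add_left card_biUnion_le _))
    have h2 : (∑ u ∈ H, ((A.filter (fun n => ¬ Q (n + u))).card : ℝ)) ≤
        V.card * (2 * (N / Real.log N ^ (B + 1))) := by
      calc _ ≤ ∑ _u ∈ H, 2 * ((N : ℝ) / Real.log N ^ (B + 1)) := sum_le_sum hbad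
        _ = H.card * (2 * (N / Real.log N ^ (B + 1))) := by rw [sum_const, nsmul_eq_mul]
        _ ≤ _ := by
            apply mul_le_mul_of_nonneg_right _ (by positivity)
            exact_mod_cast card_le_card hHV
    have h3 : (A.card : ℝ) ≤ G.card + ∑ u ∈ H, ((A.filter
        (fun n => ¬ Q (n + u))).card : ℝ) := by exact_mod_cast h1
    linarith
  rw [hAc] at hnum
  unfold Good
  have hfin : {t : ℕ | t ≤ N ∧ t ≡ a [MOD q] ∧ Consecutive R H t ∧
      ∀ u ∈ H, Small c' N (t + u) ∧ Generated P α e (t + u)}.Finite :=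
    (Set.finite_Iic N).subset fun t ht => ht.1
  have hsub : (G : Set ℕ) ⊆ {t : ℕ | t ≤ N ∧ t ≡ a [MOD q] ∧ Consecutive R H t ∧
      ∀ u ∈ H, Small c' N (t + u) ∧ Generated P α e (t + u)} := by
    intro t ht
    rw [mem_coe, hG, mem_filter, hA, mem_filter, mem_range] at ht
    obtain ⟨⟨h1, h2⟩, h3⟩ := ht
    refine ⟨by omega, h2.1, ⟨h2.2.1, h2.2.2⟩, fun u hu => ?_⟩
    have h8 := h3 u hu
    rw [hQ] at h8
    refine ⟨?_, h8.2⟩
    have h4 : Small c N (t + u) := small_of_large (h2.2.1 u hu) (by rw [← hw]; exact h8.1)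
    obtain ⟨h5, h6⟩ := h4
    unfold Small
    rw [← hw] at h5 h6 ⊢
    have h7 : 0 ≤ Real.log ((t + u : ℕ) : ℝ) := Real.log_natCast_nonneg _
    refine ⟨le_trans (by gcongr) h5, h6.trans (by gcongr)⟩
  have h1 := Set.ncard_le_ncard hsub hfin
  rw [Set.ncard_coe_finset] at h1
  have h2 : (G.card : ℝ) ≤ Set.ncard {t : ℕ | t ≤ N ∧ t ≡ a [MOD q] ∧ Consecutive R H t ∧
      ∀ u ∈ H, Small c' N (t + u) ∧ Generated P α e (t + u)} := by exact_mod_cast h1
  refine le_trans ?_ h2
  have h3 : (N : ℝ) / Real.log N ^ B' ≤ N / Real.log N ^ (B + 1) :=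
    div_le_div_of_nonneg_left hN0.le (by positivity) (pow_le_pow_right₀ hL1 hB')
  have h4 : (N : ℝ) / Real.log N ^ B = Real.log N * (N / Real.log N ^ (B + 1)) := by
    rw [pow_succ]
    field_simp
  have h5 : 0 ≤ (N : ℝ) / Real.log N ^ (B + 1) := by positivity
  nlinarith

/-- **Consecutive primes with small class numbers at every large scale.** For every `ε > 0` there is `C` such that for every
`m ≥ 1` there are `B` and `c > 0` such that for every admissible `V` with `log |V| ≥ (4 + ε) m + C`, every set `P` with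
`HasExponent P s`, all `α` with `α s > 1` and `2 (1 - s) + 2 / α < 1`, all `e > (1 - s) / 2 + 1 / (2 α)` (`Range`), all `q`, `a` such that the
`a + v`, `v ∈ V`, are prime to `q`, all `R` and every sufficiently large `N`:
(1) some distribution `μ` as in `Spread` on the subsets of `V` has only values with the property `Good`;
(2) almost all subsets of `V` with about `m²` elements contain an `m`-element set with the property `Good` (`Typical`). -/
theorem result (ε : ℝ) (hε : 0 < ε) : ∃ C : ℝ, 0 < C ∧ ∀ m : ℕ, 1 ≤ m → ∃ (B : ℕ) (c : ℝ), 0 < c ∧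
    ∀ V : Finset ℕ, (4 + ε) * m + C ≤ Real.log V.card → Admissible V →
    ∀ (P : Set ℕ) (s α e : ℝ), Range P s α e →
    ∀ q a : ℕ, 1 ≤ q → (∀ v ∈ V, Nat.Coprime (a + v) q) → ∀ R : ℕ, ∀ᶠ N : ℕ in atTop,
      (∃ μ : Finset ℕ → ℝ, Spread C m V μ ∧ ∀ H, μ H ≠ 0 → Good B c P α e q a R N H) ∧
      Typical C m V (Good B c P α e q a R N) := by
  classical
  obtain ⟨C₁, hC₁, h1⟩ := Pool.Agent.Helper50.SP.main ε hε
  obtain ⟨C₂, hC₂, h2⟩ := Pool.Agent.Helper50.TS.final ε hε
  refine ⟨max C₁ C₂, lt_max_of_lt_left hC₁, fun m hm => ?_⟩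
  obtain ⟨B₁, hB₁⟩ := h1 m hm
  obtain ⟨B₂, hB₂⟩ := h2 m hm
  obtain ⟨c₁, hc₁, g1⟩ := good_of_number B₁
  obtain ⟨c₂, hc₂, g2⟩ := good_of_number B₂
  refine ⟨max B₁ B₂ + 1, min c₁ c₂, lt_min hc₁ hc₂,
    fun V hV hadm P s α e ⟨hs0, hs1, hP, hα1, hα2, he⟩ q a hq hcop R => ?_⟩
  have hV1 : (4 + ε) * m + C₁ ≤ Real.log V.card :=
    le_trans (by linarith [le_max_left C₁ C₂]) hV
  have hV2 : (4 + ε) * m + C₂ ≤ Real.log V.card :=
    le_trans (by linarith [le_max_right C₁ C₂]) hV
  have hten : Tendsto (fun N : ℕ => (N : ℝ)) atTop atTop := tendsto_natCast_atTop_atTop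
  filter_upwards [g1 V P s α e hs0 hs1 hP hα1 hα2 he q a R, g2 V P s α e hs0 hs1 hP hα1 hα2 he q a R,
    hten.eventually ((hB₁ V hV1 hadm q a hq hcop).1 R),
    hten.eventually ((hB₂ V hV2 hadm q a hq hcop).1 R)] with N g3 g4 g5 g6
  constructor
  · obtain ⟨μ, hμ, hμ2⟩ := g5
    refine ⟨μ, spread_mono hC₁.le (le_max_left _ _) hμ, fun P hP => ?_⟩
    obtain ⟨hPV, hPm⟩ := hμ.2.1 P hP
    refine g3 P hPV ((hμ2 P hP).trans ?_) _ (by omega) _ (lt_min hc₁ hc₂) (min_le_left _ _)
    exact_mod_cast Pool.Agent.Helper50.TS.count_le_number (Subset.refl P) (fun _ _ q hq _ => hq) _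
  · exact typical_mono hC₂ (le_max_right _ _) hm (fun H hHV hHm hH =>
      g4 H hHV hH _ (by omega) _ (lt_min hc₁ hc₂) (min_le_right _ _)) g6

end Pool.Agent.Results.MP_d0fd9b_nt.ConsecutivePrimes
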