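import Pool.Agent.Helper50.VSI.Fin

/-!
# Class numbers and regulators of `ℚ(√p)` for the primes of very short intervals

For a prime `p` let `h p` be the class number and `R p` the regulator of `ℚ(√p)`.

1. There is `C` such that for all `m`, `x`, `H` with `C ≤ m ≤ (log x) / C` and `H ≤ x` the interval
   `(x, x + H]` contains at most `C m ^ 7 (log x) ^ 4 (x ^ (1 / (16 m)) + H x ^ (-1 / (16 m)))` primes
   with `R p < (√m / C) log p` or `h p > C √(p / m)`.
2. For every `w > 1 / 2` there is `C` such that for `x ≥ 16` and `x ^ w ≤ H ≤ x` the sum of `h p` over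
   the primes of `(x, x + H]` is at most `C H √x (log log x) ^ (1 / 2) / (log x) ^ (5 / 2)`.
3. The sum of `h p` over the primes `p ≤ N` is at most
   `C N ^ (3 / 2) (log log N) ^ (1 / 2) / (log N) ^ (5 / 2)` for `N ≥ 16`.

In (1) one may take a fixed `m`: in every interval of length a fixed power of `x`, the primes with
`h p > ε √p` have a power saving. For `m` of the order `log x / log log x` the intervals may be as short
as a power of `log x`, and `R p ≥ c (log p) ^ (3 / 2) / (log log p) ^ (1 / 2)` outside the exceptions.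

The proof uses the determinants of the library (project PL): the `d` in an interval of length
`D ^ (1 / (8 m))` with a least solution of Pell's equation of size `D ^ (c √m)` either are few or have a
large common factor with a fixed integer, and the latter is impossible for many primes.
-/

set_option autoImplicit false

namespace Pool.Agent.Results.MP_d0fd9b_nt.VeryShortIntervals

open Finset NumberField

/-- The real quadratic field of the square root of `d`. -/
noncomputable abbrev QS (d : ℕ) : IntermediateField ℚ ℝ :=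
  IntermediateField.adjoin ℚ {Real.sqrt (d : ℝ)}

theorem sqrt_integral (d : ℕ) : IsIntegral ℚ (Real.sqrt (d : ℝ)) := by
  refine ⟨Polynomial.X ^ 2 - Polynomial.C (d : ℚ), Polynomial.monic_X_pow_sub_C _ (by norm_num), ?_⟩
  simp [Real.sq_sqrt (show (0 : ℝ) ≤ d by positivity)]

noncomputable instance (d : ℕ) : NumberField (QS d) := by
  have : FiniteDimensional ℚ (QS d) := IntermediateField.adjoin.finiteDimensional (sqrt_integral d)
  exact { to_charZero := inferInstance, to_finiteDimensional := this }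

/-- The class number of the field of the square root of `d`. -/
noncomputable def h (d : ℕ) : ℕ := classNumber (QS d)

/-- The regulator of the field of the square root of `d`. -/
noncomputable def R (d : ℕ) : ℝ := Units.regulator (QS d)

open scoped Classical in
/-- The primes `p` of `(x, x + H]` with `R p < s log p` or `h p > √p / s`. -/
noncomputable def exceptions (s : ℝ) (x H : ℕ) : Finset ℕ :=
  (Finset.Ioc x (x + H)).filter
    (fun p => p.Prime ∧ (R p < s * Real.log p ∨ √(p : ℝ) / s < h p))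

theorem finrank_QS (p : ℕ) (hp : p.Prime) : Module.finrank ℚ (QS p) = 2 := by
  have h0 : (0 : ℝ) ≤ p := by positivity
  rw [IntermediateField.adjoin.finrank (sqrt_integral p)]
  have h1 : (minpoly ℚ (Real.sqrt (p : ℝ))).natDegree ≤ 2 := by
    have hd : minpoly ℚ (Real.sqrt (p : ℝ)) ∣ Polynomial.X ^ 2 - Polynomial.C (p : ℚ) := by
      apply minpoly.dvd
      simp [Real.sq_sqrt h0]
    have h2 := Polynomial.natDegree_le_of_dvd hd
      (Polynomial.X_pow_sub_C_ne_zero (by norm_num) _)
    rwa [Polynomial.natDegree_X_pow_sub_C] at h2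
  have h2 : 0 < (minpoly ℚ (Real.sqrt (p : ℝ))).natDegree :=
    minpoly.natDegree_pos (sqrt_integral p)
  have h3 : (minpoly ℚ (Real.sqrt (p : ℝ))).natDegree ≠ 1 := by
    intro h
    have h4 := (minpoly.natDegree_eq_one_iff).1 h
    obtain ⟨q, hq⟩ := h4
    have h5 := hp.irrational_sqrt
    apply h5
    exact ⟨q, by simpa using hq⟩
  omega

theorem root_QS (p : ℕ) : ∃ x : QS p, x ^ 2 = (p : QS p) := by
  refine ⟨⟨Real.sqrt (p : ℝ), IntermediateField.mem_adjoin_simple_self ℚ _⟩, ?_⟩
  apply Subtype.ext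
  push_cast
  exact Real.sq_sqrt (by positivity)

theorem isCl : Pool.Agent.Q276.PL.Mean.IsCl h := fun p hp =>
  ⟨QS p, inferInstance, inferInstance, finrank_QS p hp, root_QS p, rfl⟩

theorem not_large {s : ℝ} {p : ℕ} (hp : p.Prime)
    (he : R p < s * Real.log p ∨ √(p : ℝ) / s < h p) : ¬ Helper50.VSI.Large s p := by
  intro hL
  obtain ⟨h1, h2⟩ := hL (QS p) (finrank_QS p hp) (root_QS p)
  rcases he with h3 | h3
  · exact absurd h1 (not_le.2 h3)
  · exact absurd h2 (not_le.2 h3)

/-- **Main theorem.** -/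
theorem result :
    (∃ C : ℝ, 1 ≤ C ∧ ∀ m x H : ℕ, C ≤ m → C * m ≤ Real.log x → H ≤ x →
      ((exceptions (√(m : ℝ) / C) x H).card : ℝ) ≤ C * (m : ℝ) ^ 7 * Real.log x ^ 4 *
        ((x : ℝ) ^ (1 / (16 * (m : ℝ))) + H * (x : ℝ) ^ (-(1 / (16 * (m : ℝ)))))) ∧
    (∀ w : ℝ, 1 / 2 < w → ∃ C : ℝ, ∀ x H : ℕ, 16 ≤ x → (x : ℝ) ^ w ≤ H → H ≤ x →
      ∑ p ∈ (Finset.Ioc x (x + H)).filter Nat.Prime, (h p : ℝ) ≤
        C * √(Real.log (Real.log x)) * (H * √(x : ℝ) / Real.log x ^ (5 / 2 : ℝ))) ∧
    (∃ C : ℝ, ∀ N : ℕ, 16 ≤ N → ∑ p ∈ (Finset.Icc 1 N).filter Nat.Prime, (h p : ℝ) ≤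
      C * √(Real.log (Real.log N)) * ((N : ℝ) ^ (3 / 2 : ℝ) / Real.log N ^ (5 / 2 : ℝ))) := by
  refine ⟨?_, ?_, ?_⟩
  · obtain ⟨C, hC1, hC⟩ := Helper50.VSI.exceptions_card
    refine ⟨C, hC1, fun m x H hm hx hH => hC m x H _ hm hx hH (fun p hp => ?_)⟩
    unfold exceptions at hp
    rw [mem_filter, Finset.mem_Ioc] at hp
    exact ⟨hp.2.1, hp.1.1, hp.1.2, not_large hp.2.1 hp.2.2⟩
  · intro w hw
    obtain ⟨C, _, hC⟩ := Helper50.VSI.meanS w hw
    exact ⟨C, fun x H hx hH1 hH2 => by convert hC h isCl x H hx hH1 hH2⟩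
  · obtain ⟨C, _, hC⟩ := Helper50.VSI.mean2
    exact ⟨C, fun N hN => by convert hC h isCl N hN⟩

end Pool.Agent.Results.MP_d0fd9b_nt.VeryShortIntervals
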